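import Pool.Agent.W544.FF.Defs3
import Pool.Agent.W108.PG.G1P

/-! Project FF, part G1S: the block-symmetric version of G1P. -/

set_option autoImplicit false

open Matrix Finset Module

namespace Pool.Agent.W977.FF

open Pool.Agent.W544.PG Pool.Agent.W544.FF Pool.Agent.W392.PG Pool.Agent.W108.PG

noncomputable section

variable {n r k b : ℕ}

/-- permutation of the slots -/
def pm (π : Equiv.Perm (Fin k)) : ((Fin k → Fin n) → ℂ) →ₗ[ℂ] ((Fin k → Fin n) → ℂ) where
  toFun s := fun J => s (fun j => J (π j))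
  map_add' _ _ := rfl
  map_smul' _ _ := rfl

theorem pm_apply (π : Equiv.Perm (Fin k)) (s : (Fin k → Fin n) → ℂ) (J : Fin k → Fin n) :
    pm π s J = s (fun j => J (π j)) := rfl

theorem symF_iff (f : Fin k → Fin b) (s : (Fin k → Fin n) → ℂ) :
    SymF f s ↔ ∀ π : Equiv.Perm (Fin k), (∀ j, f (π j) = f j) → pm π s = s :=
  ⟨fun h π hπ => funext fun J => h π hπ J, fun h π hπ J => congrFun (h π hπ) J⟩

theorem act_pm (Z : Matrix (Fin n) (Fin n) ℂ) (π : Equiv.Perm (Fin k))
    (s : (Fin k → Fin n) → ℂ) : act Z (pm π s) = pm π (act Z s) := by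
  funext J
  rw [pm_apply]
  unfold act
  rw [← Equiv.sum_comp π]
  refine Finset.sum_congr rfl fun j _ => Finset.sum_congr rfl fun l _ => ?_
  rw [pm_apply]
  congr 2
  funext i
  by_cases h : i = j
  · subst h
    rw [Function.update_self, Function.update_self]
  · rw [Function.update_of_ne h, Function.update_of_ne fun h' => h (π.injective h')]

/-- block-symmetric forms -/
def Sy (f : Fin k → Fin b) : Submodule ℂ ((Fin k → Fin n) → ℂ) where
  carrier := {s | SymF f s}
  zero_mem' := fun _ _ _ => rfl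
  add_mem' := by
    intro s t hs ht π hπ J
    rw [Pi.add_apply, Pi.add_apply, hs π hπ J, ht π hπ J]
  smul_mem' := by
    intro z s hs π hπ J
    rw [Pi.smul_apply, Pi.smul_apply, hs π hπ J]

theorem mem_Sy {f : Fin k → Fin b} {s : (Fin k → Fin n) → ℂ} : s ∈ Sy f ↔ SymF f s := Iff.rfl

theorem Sy_act (f : Fin k → Fin b) (Z : Matrix (Fin n) (Fin n) ℂ) {s : (Fin k → Fin n) → ℂ}
    (hs : s ∈ Sy f) : act Z s ∈ Sy f := by
  rw [mem_Sy, symF_iff] at hs ⊢
  intro π hπ
  rw [← act_pm, hs π hπ]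

theorem cd_eq (c : Fin n → Fin r) (a : Fin k → Fin r) (σ : Fin k → Fin k)
    (hσ : ∀ j, σ (σ j) = j) (hσa : ∀ j, a (σ j) = a j) (J : Fin k → Fin n) :
    col c a σ J * dl σ J =
      if (∀ j, J (σ j) = J j) ∧ (∀ j, σ j ≠ j → c (J j) = a j) then 1 else 0 := by
  by_cases h0 : ∀ j, J (σ j) = J j
  · have h1 : dl σ J = 1 := by rw [dl_eq σ hσ, if_pos h0]
    rw [h1, mul_one]
    by_cases h2 : ∀ j, σ j ≠ j → c (J j) = a j
    · rw [if_pos ⟨h0, h2⟩]
      exact Finset.prod_eq_one fun j hj => if_pos (h2 j (ne_of_gt (Finset.mem_filter.1 hj).2))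
    · rw [if_neg fun h => h2 h.2]
      push Not at h2
      obtain ⟨j, hj, hj2⟩ := h2
      rcases lt_trichotomy j (σ j) with h6 | h6 | h6
      · exact Finset.prod_eq_zero (Finset.mem_filter.2 ⟨Finset.mem_univ j, h6⟩) (if_neg hj2)
      · exact absurd h6.symm hj
      · exact Finset.prod_eq_zero (i := σ j) (Finset.mem_filter.2 ⟨Finset.mem_univ _, by
          rw [hσ]; exact h6⟩) (if_neg (by rw [h0, hσa]; exact hj2))
  · have h1 : dl σ J = 0 := by rw [dl_eq σ hσ, if_neg h0]
    rw [h1, mul_zero, if_neg fun h => h0 h.1]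

theorem insC2_pm {l : ℕ} (c : Fin n → Fin r) (a : Fin k → Fin r) (π : Equiv.Perm (Fin k))
    (hπ : ∀ j, a (π j) = a j) {s : (Fin k → Fin n) → ℂ} (hs : s ∈ insC2 c a l) :
    pm π s ∈ insC2 c a l := by
  have h : insC2 c a l ≤ (insC2 c a l).comap (pm π) := by
    conv_lhs => unfold insC2
    rw [Submodule.span_le]
    rintro s ⟨σ, u, hσ, hσa, hl, hu, hs⟩
    show pm π s ∈ insC2 c a l
    obtain ⟨τ, hτ⟩ : ∃ τ : Fin k → Fin k, ∀ j, τ j = π (σ (π.symm j)) := ⟨_, fun _ => rfl⟩
    have hτσ : ∀ j, τ (τ j) = j := by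
      intro j
      rw [hτ, hτ, Equiv.symm_apply_apply, hσ, Equiv.apply_symm_apply]
    have haπ : ∀ j, a (π.symm j) = a j := by
      intro j
      rw [← hπ, Equiv.apply_symm_apply]
    have hτa : ∀ j, a (τ j) = a j := by
      intro j
      rw [hτ, hπ, hσa, haπ]
    have e : pm π s = fun J => col c a τ J * (dl τ J * pm π u J) := by
      funext J
      rw [pm_apply, hs, prod_split, cd_eq c a σ hσ hσa, ← mul_assoc, cd_eq c a τ hτσ hτa, pm_apply]
      congr 1
      refine if_congr ?_ rfl rfl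
      constructor
      · rintro ⟨h1, h2⟩
        refine ⟨fun j => ?_, fun j hj => ?_⟩
        · have h3 := h1 (π.symm j)
          rw [Equiv.apply_symm_apply] at h3
          rw [hτ]
          exact h3
        · have h3 := h2 (π.symm j) (by
            intro h4
            apply hj
            rw [hτ, h4, Equiv.apply_symm_apply])
          rw [Equiv.apply_symm_apply, haπ] at h3
          exact h3
      · rintro ⟨h1, h2⟩
        refine ⟨fun j => ?_, fun j hj => ?_⟩
        · have h3 := h1 (π j)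
          rw [hτ, Equiv.symm_apply_apply] at h3
          exact h3
        · have h3 := h2 (π j) (by
            rw [hτ, Equiv.symm_apply_apply]
            intro h4
            exact hj (π.injective h4))
          rw [hπ] at h3
          exact h3
    rw [e]
    refine gen2_mem c a τ hτσ hτa _ ?_ ?_
    · intro J J' hJ
      rw [pm_apply, pm_apply]
      refine hu _ _ fun j hj => ?_
      refine hJ (π j) ?_
      rw [hτ, Equiv.symm_apply_apply, hj]
    · refine hl.trans (le_of_eq ?_)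
      refine Finset.card_bij (fun j _ => π j) ?_ ?_ ?_
      · intro j hj
        rw [Finset.mem_filter] at hj ⊢
        refine ⟨Finset.mem_univ _, fun h4 => hj.2 ?_⟩
        rw [hτ, Equiv.symm_apply_apply] at h4
        exact π.injective h4
      · intro i _ j _ h4
        exact π.injective h4
      · intro j hj
        rw [Finset.mem_filter] at hj
        refine ⟨π.symm j, ?_, Equiv.apply_symm_apply _ _⟩
        rw [Finset.mem_filter]
        refine ⟨Finset.mem_univ _, fun h4 => hj.2 ?_⟩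
        rw [hτ, h4, Equiv.apply_symm_apply]
  exact h hs

theorem suppS_pm (c : Fin n → Fin r) (a : Fin k → Fin r) (π : Equiv.Perm (Fin k))
    (hπ : ∀ j, a (π j) = a j) {s : (Fin k → Fin n) → ℂ} (hs : s ∈ suppS c a) :
    pm π s ∈ suppS c a := by
  intro J
  have h1 := hs (fun j => J (π j))
  have h2 : pat c a (fun j => J (π j)) = pat c a J := by
    unfold pat
    refine if_congr ?_ rfl rfl
    constructor
    · intro h j
      have h3 : c (J (π (π.symm j))) = a (π.symm j) := h (π.symm j)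
      rw [← hπ (π.symm j), Equiv.apply_symm_apply] at h3
      exact h3
    · intro h j
      show c (J (π j)) = a j
      rw [h, hπ]
  rw [h2] at h1
  exact h1

theorem Ia_pm {l : ℕ} (c : Fin n → Fin r) (a : Fin k → Fin r) (π : Equiv.Perm (Fin k))
    (hπ : ∀ j, a (π j) = a j) {s : (Fin k → Fin n) → ℂ} (hs : s ∈ Ia c a l) :
    pm π s ∈ Ia c a l :=
  ⟨insC2_pm c a π hπ hs.1, suppS_pm c a π hπ hs.2⟩

theorem Bf_pm (π : Equiv.Perm (Fin k)) (s t : (Fin k → Fin n) → ℂ) :
    Bf n k t (pm π s) = Bf n k (pm π.symm t) s := by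
  rw [Bf_apply, Bf_apply]
  refine Fintype.sum_equiv (Equiv.arrowCongr π.symm (Equiv.refl (Fin n))) _ _ fun J => ?_
  rw [pm_apply, pm_apply]
  have h1 : ∀ i, (Equiv.arrowCongr π.symm (Equiv.refl (Fin n))) J i = J (π i) := fun i => rfl
  have h2 : (Equiv.arrowCongr π.symm (Equiv.refl (Fin n))) J = fun i => J (π i) := funext h1
  rw [h2]
  congr 2
  funext i
  show J i = J (π (π.symm i))
  rw [Equiv.apply_symm_apply]

theorem orth_pm {l : ℕ} (c : Fin n → Fin r) (a : Fin k → Fin r) (π : Equiv.Perm (Fin k))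
    (hπ : ∀ j, a (π j) = a j) {s : (Fin k → Fin n) → ℂ}
    (hs : s ∈ (Bf n k).orthogonal (Ia c a l)) : pm π s ∈ (Bf n k).orthogonal (Ia c a l) := by
  rw [LinearMap.BilinForm.mem_orthogonal_iff] at hs ⊢
  intro t ht
  show Bf n k t (pm π s) = 0
  rw [Bf_pm]
  refine hs _ (Ia_pm c a π.symm (fun j => ?_) ht)
  rw [← hπ, Equiv.apply_symm_apply]

/-- a contraction of a block-symmetric form is block-symmetric -/
theorem cn_sym {m : ℕ} (f : Fin k → Fin b) (σ : Fin k → Fin k)
    (hσ : ∀ j, σ (σ j) = j) (ρ : Fin m → Fin k) (hρ : Function.Injective ρ)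
    (hfix : ∀ j, σ j = j ↔ ∃ i, ρ i = j) (d : (Fin k → Fin n) → ℂ) (hd : SymF f d) :
    SymF (fun i => f (ρ i)) (cn σ ρ d) := by
  intro π' hπ' K
  obtain ⟨π, hπ⟩ : ∃ π : Equiv.Perm (Fin k), π = π'.viaEmbedding ⟨ρ, hρ⟩ := ⟨_, rfl⟩
  have h1 : ∀ i, π (ρ i) = ρ (π' i) := by
    intro i
    rw [hπ]
    exact Equiv.Perm.viaEmbedding_apply π' ⟨ρ, hρ⟩ i
  have h2 : ∀ j, σ j ≠ j → π j = j := by
    intro j hj
    rw [hπ]
    refine Equiv.Perm.viaEmbedding_apply_of_notMem π' ⟨ρ, hρ⟩ j ?_
    rintro ⟨i, hi⟩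
    exact hj ((hfix j).2 ⟨i, hi⟩)
  have h3 : ∀ j, f (π j) = f j := by
    intro j
    by_cases hj : σ j = j
    · obtain ⟨i, rfl⟩ := (hfix j).1 hj
      rw [h1]
      exact hπ' i
    · rw [h2 j hj]
  rw [cn_apply, cn_apply]
  symm
  refine Fintype.sum_equiv (Equiv.arrowCongr π.symm (Equiv.refl (Fin n))) _ _ fun J => ?_
  have h4 : (Equiv.arrowCongr π.symm (Equiv.refl (Fin n))) J = fun i => J (π i) := funext fun i => rfl
  rw [h4, hd π h3 J]
  congr 2
  · rw [dl_eq σ hσ, dl_eq σ hσ]
    refine if_congr ?_ rfl rfl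
    have h5 : ∀ j, J (π (σ j)) = J (π j) ↔ J (σ j) = J j := by
      intro j
      by_cases hj : σ j = j
      · rw [hj]
        exact ⟨fun _ => rfl, fun _ => rfl⟩
      · rw [h2 j hj, h2 (σ j) (by rw [hσ]; exact fun h => hj h.symm)]
    exact forall_congr' fun j => (h5 j).symm
  · unfold ind
    refine if_congr ?_ rfl rfl
    constructor
    · intro h i
      show J (π (ρ i)) = K (π' i)
      rw [h1, h]
    · intro h i
      have h5 : J (π (ρ (π'.symm i))) = K (π' (π'.symm i)) := h (π'.symm i)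
      rw [h1, Equiv.apply_symm_apply] at h5
      exact h5

theorem nb_le {m : ℕ} (f : Fin k → Fin b) (a : Fin k → Fin r) (ρ : Fin m → Fin k) (i : Fin r) :
    nb (fun j => f (ρ j)) (fun j => a (ρ j)) i ≤ nb f a i := by
  unfold nb
  refine Finset.card_le_card fun x hx => ?_
  rw [Finset.mem_filter] at hx ⊢
  obtain ⟨_, j, h1, h2⟩ := hx
  exact ⟨Finset.mem_univ _, ρ j, h1, h2⟩

theorem g1s (hg2 : S_g2s) : S_g1s := by
  intro n R k B l c a f p X hX hXX hXc htr hfa hns M hMs hMf hM hE
  by_contra hnot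
  obtain ⟨m, hmM, hmI0⟩ := SetLike.not_le_iff_exists.1 hnot
  have hmI : m ∉ Ia c a l := fun h => hmI0 h.1
  have hcompl := conj_compl (Ia c a l) (fun s hs => Ia_conj c a hs)
  set O : Submodule ℂ ((Fin k → Fin n) → ℂ) := (Bf n k).orthogonal (Ia c a l) with hO
  set M' : Submodule ℂ ((Fin k → Fin n) → ℂ) := (O ⊓ (M ⊔ Ia c a l)) ⊓ Sy f with hM'
  have hM's : ∀ s ∈ M', Supp c a s := by
    intro s hs
    rw [supp_iff]
    have h1 : M ⊔ Ia c a l ≤ suppS c a := by
      refine sup_le ?_ inf_le_right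
      intro t ht
      exact (supp_iff c a t).1 (hMs t ht)
    exact h1 hs.1.2
  have hM'f : ∀ s ∈ M', SymF f s := fun s hs => hs.2
  -- stable
  have hst : ∀ Z : Matrix (Fin n) (Fin n) ℂ, Zᵀ = -Z → BD c Z → ∀ s ∈ M', actL Z s ∈ M' := by
    intro Z hZ hZc s hs
    rw [hM', Submodule.mem_inf, Submodule.mem_inf] at hs ⊢
    refine ⟨⟨by rw [actL_apply]; exact orth2_act c a Z hZ hZc hs.1.1, ?_⟩,
      by rw [actL_apply]; exact Sy_act f Z hs.2⟩
    obtain ⟨x, hx, y, hy, rfl⟩ := Submodule.mem_sup.1 hs.1.2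
    rw [map_add, actL_apply, actL_apply]
    exact Submodule.add_mem_sup (hM Z hZ hZc x hx) (Ia_act c a Z hZ hZc hy)
  -- nonzero
  have hne : ∃ b ∈ M', b ≠ 0 := by
    have htop : m ∈ Ia c a l ⊔ O := by rw [hcompl.sup_eq_top]; trivial
    obtain ⟨i, hi, o, ho, hio⟩ := Submodule.mem_sup.1 htop
    have hsy : o ∈ Sy f := by
      rw [mem_Sy, symF_iff]
      intro π hπ
      have haπ : ∀ j, a (π j) = a j := fun j => hfa _ _ (hπ j)
      have h1 : pm π m = m := (symF_iff f m).1 (hMf m hmM) π hπ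
      have h2 : pm π i - i = o - pm π o := by
        have h3 : pm π i + pm π o = i + o := by rw [← map_add, hio, h1]
        rw [sub_eq_sub_iff_add_eq_add, h3, add_comm]
      have h4 : pm π i - i ∈ Ia c a l := Submodule.sub_mem _ (Ia_pm c a π haπ hi) hi
      have h5 : pm π i - i ∈ O := by
        rw [h2]
        exact Submodule.sub_mem _ ho (orth_pm c a π haπ ho)
      have h6 : pm π i - i = 0 := Submodule.disjoint_def.1 hcompl.disjoint _ h4 h5
      rw [h6] at h2
      exact (sub_eq_zero.1 h2.symm).symm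
    refine ⟨o, ⟨⟨ho, ?_⟩, hsy⟩, ?_⟩
    · have : o = m - i := by rw [← hio]; abel
      rw [this]
      exact Submodule.sub_mem _ (Submodule.mem_sup_left hmM) (Submodule.mem_sup_right hi)
    · rintro rfl
      apply hmI
      rw [← hio, add_zero]
      exact hi
  let Q : ℕ → Prop := fun l' => ∃ (r : ℕ) (σ : Fin k → Fin k) (ρ : Fin r → Fin k),
    r + 2 * l' = k ∧ (∀ j, σ (σ j) = j) ∧ Function.Injective ρ ∧
      (∀ j, σ j = j ↔ ∃ i, ρ i = j) ∧ ∃ b ∈ M', cn σ ρ b ≠ 0
  have hQ0 : Q 0 := by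
    obtain ⟨b, hb, hb0⟩ := hne
    refine ⟨k, id, id, by ring, fun _ => rfl, Function.injective_id,
      fun j => ⟨fun _ => ⟨j, rfl⟩, fun _ => rfl⟩, b, hb, ?_⟩
    intro h
    apply hb0
    funext K
    have h1 := congrFun h K
    rw [cn_apply, Finset.sum_eq_single K] at h1
    · simpa [dl, ind] using h1
    · intro J _ hJ
      have : ind (id : Fin k → Fin k) K J = 0 := by
        unfold ind
        rw [if_neg]
        intro h2
        exact hJ (funext h2)
      rw [this]
      ring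
    · intro h2
      exact absurd (Finset.mem_univ _) h2
  have hex : ∃ l', Q l' ∧ ¬ Q (l' + 1) := by
    by_contra hc
    push Not at hc
    have hall : ∀ l', Q l' := by
      intro l'
      induction l' with
      | zero => exact hQ0
      | succ l' ih => exact hc l' ih
    obtain ⟨r, _, _, h, _⟩ := hall (k + 1)
    omega
  obtain ⟨l', ⟨r, σ, ρ, hr, hσ, hρ, hfix, b, hb, hb0⟩, hnQ⟩ := hex
  have hσa : ∀ j, a (σ j) = a j := by
    obtain ⟨K, hK⟩ := Function.ne_iff.1 hb0
    exact (cn_col c a σ hσ ρ b (hM's b hb) K hK).1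
  have hl' : l' < l := by
    by_contra hc
    push Not at hc
    apply hb0
    have hc1 : (univ.filter fun j => σ j = j).card = r := by
      have : (univ.filter fun j => σ j = j) = univ.image ρ := by
        ext j
        rw [Finset.mem_filter, Finset.mem_image, hfix]
        simp
      rw [this, Finset.card_image_of_injective _ hρ, Finset.card_univ, Fintype.card_fin]
    have hc2 := Finset.card_filter_add_card_filter_not (s := (univ : Finset (Fin k)))
      (fun j => σ j = j)
    rw [Finset.card_univ, Fintype.card_fin] at hc2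
    have hc3 : 2 * l ≤ (univ.filter fun j => σ j ≠ j).card := by
      have : (univ.filter fun j => ¬ σ j = j).card = (univ.filter fun j => σ j ≠ j).card := rfl
      omega
    exact cn_orth2 c a σ hσ hσa ρ hfix b (hM's b hb) hc3 hb.1.1
  obtain ⟨s, ⟨d, hdM, hds⟩, hs0, hXs⟩ := hg2 n R r B c (fun j => a (ρ j)) (fun j => f (ρ j)) p X hX hXX
    hXc htr (fun j j' h => hfa _ _ h)
    (fun i => by
      have h1 := nb_le f a ρ i
      rcases hns i with ⟨h2, h3⟩ | h2
      · left
        exact ⟨by omega, by omega⟩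
      · right
        omega)
    (M'.map (cn σ ρ))
    (by
      rintro _ ⟨d, hd, rfl⟩ K hK i
      exact (cn_col c a σ hσ ρ d (hM's d hd) K hK).2 i)
    (by
      rintro _ ⟨d, hd, rfl⟩
      exact cn_sym f σ hσ ρ hρ hfix d (hM'f d hd))
    (by
      rintro Z hZ hZc _ ⟨d, hd, rfl⟩
      refine ⟨act Z d, ?_, cn_act Z hZ σ hσ ρ hρ hfix d⟩
      have := hst Z hZ hZc d hd
      rwa [actL_apply] at this)
    (by
      rintro _ ⟨d, hd, rfl⟩ i i' hii K
      by_contra hne'
      obtain ⟨r', σ', ρ', h1, h2, h3, h4, h5⟩ := more σ hσ ρ hρ hfix d i i' hii K hne'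
      exact hnQ ⟨r', σ', ρ', by omega, h2, h3, h4, d, hd, h5⟩)
    (by
      intro h
      apply hb0
      have h1 : cn σ ρ b ∈ M'.map (cn σ ρ) := ⟨b, hb, rfl⟩
      rw [h] at h1
      exact (Submodule.mem_bot _).1 h1)
  -- the polynomial
  set P0 : Polynomial ℂ := ∏ e ∈ (Finset.Icc (-(k : ℤ)) k).erase (r : ℤ),
    (Polynomial.X - Polynomial.C (e : ℂ)) with hP0
  have hmul : (Polynomial.X - Polynomial.C (r : ℂ)) * P0 = pp k := by
    have hmem : (r : ℤ) ∈ Finset.Icc (-(k : ℤ)) k := Finset.mem_Icc.2 ⟨by omega, by omega⟩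
    have := Finset.mul_prod_erase (Finset.Icc (-(k : ℤ)) k)
      (fun e : ℤ => (Polynomial.X - Polynomial.C (e : ℂ) : Polynomial ℂ)) hmem
    unfold pp
    rw [← this]
    push_cast
    rfl
  have hP0r : P0.eval (r : ℂ) ≠ 0 := by
    rw [hP0, Polynomial.eval_prod, Finset.prod_ne_zero_iff]
    intro e he h
    rw [Finset.mem_erase] at he
    apply he.1
    simp only [Polynomial.eval_sub, Polynomial.eval_X, Polynomial.eval_C] at h
    have h1 : (r : ℂ) = (e : ℂ) := sub_eq_zero.1 h
    exact_mod_cast h1.symm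
  set P : Polynomial ℂ := Polynomial.C (P0.eval (r : ℂ))⁻¹ * P0 with hP
  have hPr : P.eval (r : ℂ) = 1 := by
    rw [hP, Polynomial.eval_mul, Polynomial.eval_C, inv_mul_cancel₀ hP0r]
  have heig : ∀ v : (Fin k → Fin n) → ℂ,
      actL X (Polynomial.aeval (actL X) P v) = (r : ℂ) • Polynomial.aeval (actL X) P v := by
    intro v
    have h1 : Polynomial.aeval (actL (k := k) X)
        ((Polynomial.X - Polynomial.C (r : ℂ)) * P) = 0 := by
      have : (Polynomial.X - Polynomial.C (r : ℂ)) * P =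
          Polynomial.C (P0.eval (r : ℂ))⁻¹ * pp k := by
        rw [← hmul, hP]; ring
      rw [this, map_mul, actL_pp X hXX, mul_zero]
    have h2 := congrArg (fun T : Module.End ℂ ((Fin k → Fin n) → ℂ) => T v) h1
    simp only [map_mul, map_sub, Polynomial.aeval_X, Polynomial.aeval_C] at h2
    rw [Module.End.mul_apply, LinearMap.sub_apply, Module.algebraMap_end_apply] at h2
    exact sub_eq_zero.1 h2
  set e := Polynomial.aeval (actL X) P d with he
  have heM : e ∈ M' := aeval_mem _ M' (hst X hX hXc) P hdM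
  have hes : cn σ ρ e = s := by
    rw [he, aeval_inter (actL X) (actL X) (cn σ ρ)
      (fun v => by rw [actL_apply, actL_apply, cn_act X hX σ hσ ρ hρ hfix]) P d, hds,
      aeval_eig (actL X) (r : ℂ) s (by rw [actL_apply, hXs]) P, hPr, one_smul]
  have hee : Polynomial.aeval (actL X) P e = e := by
    rw [aeval_eig (actL X) (r : ℂ) e (heig d) P, hPr, one_smul]
  obtain ⟨x, hx, i, hi, hxi⟩ := Submodule.mem_sup.1 heM.1.2
  have hx1 : Polynomial.aeval (actL X) P x ∈ M :=
    aeval_mem _ M (fun v hv => by rw [actL_apply]; exact hM X hX hXc v hv) P hx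
  have hi1 : Polynomial.aeval (actL X) P i ∈ Ia c a l :=
    aeval_mem _ _ (fun v hv => by rw [actL_apply]; exact Ia_act c a X hX hXc hv) P hi
  have hx0 : Polynomial.aeval (actL X) P x = 0 := by
    refine hE (r : ℤ) ?_ _ hx1 ?_
    · rw [abs_of_nonneg (by positivity)]
      omega
    · rw [← actL_apply, heig]
      push_cast
      rfl
  have heI : e ∈ Ia c a l := by
    rw [← hee, ← hxi, map_add, hx0, zero_add]
    exact hi1
  have he0 : e = 0 := Submodule.disjoint_def.1 hcompl.disjoint e heI heM.1.1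
  apply hs0
  rw [← hes, he0, map_zero]

end

end Pool.Agent.W977.FF
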